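import Mathlib
import Pool.Agent.Q261.AP.Pack
import Pool.Agent.TH404.AK.Sdc3

/-!
# MP_4b405e_nt: progressions whose common differences form an arbitrary set

The arithmetic Kakeya problem of Q1 with the cube `[0,1]^n` of common differences replaced by an
arbitrary set `R ⊆ ℝ^n`.  There is an absolute number `k₀` such that for all `n`, all `k ≥ k₀` and all
sets `R, B ⊆ ℝ^n` such that `B` contains a `k`-term progression with every common difference in `R`:

* at every scale `δ`, if `B` is covered by `N` sets of diameter at most `δ`, then `R` is covered by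
  `C(n) N ^ 1.669587` such sets;
* `dim R ≤ 1.669587 dim B` for the upper and the lower Minkowski dimension (`B` bounded) and for the
  packing dimension (`B` arbitrary);
* if `R` has positive outer Lebesgue measure, then the packing dimension of `B` is at least
  `n / 1.669587`, and so is the lower Minkowski dimension if `B` is bounded.

In particular `n / 1.669587 ≤ f^M_n(k)` and `n / 1.669587 ≤ f^P_n(k)` for all `n` and `k ≥ k₀`.
-/

set_option autoImplicit false

open Filter Topology MeasureTheory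

namespace Pool.Agent.Results.MP_4b405e_nt.AllDifferenceSets

/-- `B` contains a `k`-term progression with every common difference in `R`. -/
def Prog {n : ℕ} (k : ℕ) (R B : Set (EuclideanSpace ℝ (Fin n))) : Prop :=
  ∀ r ∈ R, ∃ a : EuclideanSpace ℝ (Fin n), ∀ j : ℕ, j < k → a + (j : ℝ) • r ∈ B

/-- `B` is covered by `N` sets of diameter at most `δ`. -/
def Covers {n : ℕ} (δ : ℝ) (B : Set (EuclideanSpace ℝ (Fin n))) (N : ℕ) : Prop :=
  ∃ U : Fin N → Set (EuclideanSpace ℝ (Fin n)),
    (∀ i, ∀ x ∈ U i, ∀ y ∈ U i, dist x y ≤ δ) ∧ B ⊆ ⋃ i, U i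

/-- The least number of sets of diameter at most `δ` covering `B` (for bounded `B`). -/
noncomputable def coverNum {n : ℕ} (B : Set (EuclideanSpace ℝ (Fin n))) (δ : ℝ) : ℕ :=
  sInf {N | Covers δ B N}

/-- Upper Minkowski dimension of a bounded set. -/
noncomputable def upperMinkowski {n : ℕ} (B : Set (EuclideanSpace ℝ (Fin n))) : EReal :=
  limsup (fun δ : ℝ => ((Real.log (coverNum B δ) / Real.log (1 / δ) : ℝ) : EReal)) (𝓝[>] 0)

/-- Lower Minkowski dimension of a bounded set. -/
noncomputable def lowerMinkowski {n : ℕ} (B : Set (EuclideanSpace ℝ (Fin n))) : EReal :=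
  liminf (fun δ : ℝ => ((Real.log (coverNum B δ) / Real.log (1 / δ) : ℝ) : EReal)) (𝓝[>] 0)

/-- Packing dimension: the infimum of `sup_i dim_M A_i` over all coverings of `B` by a sequence of
bounded sets `A_i`. -/
noncomputable def packingDim {n : ℕ} (B : Set (EuclideanSpace ℝ (Fin n))) : EReal :=
  ⨅ (A : ℕ → Set (EuclideanSpace ℝ (Fin n))) (_ : ∀ i, Bornology.IsBounded (A i))
    (_ : B ⊆ ⋃ i, A i), ⨆ i, upperMinkowski (A i)

/-- `B` contains a `k`-term progression with every common difference in `[0,1]^n`. -/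
def HasProgressions {n : ℕ} (k : ℕ) (B : Set (EuclideanSpace ℝ (Fin n))) : Prop :=
  ∀ r : EuclideanSpace ℝ (Fin n), (∀ i, r i ∈ Set.Icc (0 : ℝ) 1) →
    ∃ a : EuclideanSpace ℝ (Fin n), ∀ j : ℕ, j < k → a + (j : ℝ) • r ∈ B

/-- `f^M_n(k)` -/
noncomputable def fM (n k : ℕ) : EReal :=
  ⨅ (B : Set (EuclideanSpace ℝ (Fin n))) (_ : Bornology.IsBounded B) (_ : HasProgressions k B),
    upperMinkowski B

/-- `f^P_n(k)` -/
noncomputable def fP (n k : ℕ) : EReal :=
  ⨅ (B : Set (EuclideanSpace ℝ (Fin n))) (_ : Bornology.IsBounded B) (_ : HasProgressions k B),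
    packingDim B

/-- the exponent -/
noncomputable def c : ℝ := 1669587 / 1000000

theorem result : ∃ k₀ : ℕ, ∀ k : ℕ, k₀ ≤ k → ∀ n : ℕ,
    -- covering numbers at every scale
    (∃ C : ℝ, 0 < C ∧ ∀ R B : Set (EuclideanSpace ℝ (Fin n)), Prog k R B →
      ∀ δ : ℝ, 0 < δ → ∀ N : ℕ, Covers δ B N →
        ∃ M : ℕ, Covers δ R M ∧ (M : ℝ) ≤ C * (N : ℝ) ^ c) ∧
    -- dimensions
    (∀ R B : Set (EuclideanSpace ℝ (Fin n)), Prog k R B →
      packingDim R ≤ (c : EReal) * packingDim B ∧
      (volume R ≠ 0 → (((n : ℝ) / c : ℝ) : EReal) ≤ packingDim B) ∧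
      (Bornology.IsBounded B → Bornology.IsBounded R ∧
        upperMinkowski R ≤ (c : EReal) * upperMinkowski B ∧
        lowerMinkowski R ≤ (c : EReal) * lowerMinkowski B ∧
        (volume R ≠ 0 → (((n : ℝ) / c : ℝ) : EReal) ≤ lowerMinkowski B))) ∧
    -- the quantities of the problem
    (((n : ℝ) / c : ℝ) : EReal) ≤ fM n k ∧ (((n : ℝ) / c : ℝ) : EReal) ≤ fP n k := by
  have hc : (0 : ℝ) < c := by unfold c; norm_num
  have hSD : Pool.Agent.W46.KK.SD c := by
    obtain ⟨S, h⟩ := Pool.Agent.TH404.AK.sdc3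
    exact ⟨S, h⟩
  obtain ⟨k₀, h2, h3⟩ := Pool.Agent.Q261.AP.covering hSD hc.le
  have hg₀ : Pool.Agent.Q261.AP.Good c k₀ := ⟨h2, h3⟩
  refine ⟨k₀, fun k hk n => ?_⟩
  have hg := hg₀.mono hk
  refine ⟨hg.2 n, fun R B hP => ⟨Pool.Agent.Q261.AP.good_packing hc hg hP,
    fun hv => Pool.Agent.Q261.AP.good_volume hc hg hP hv, fun hB =>
      ⟨Pool.Agent.Q261.AP.Prog.bounded hg.1 hP hB, Pool.Agent.Q261.AP.good_upper hc hg hP hB,
        Pool.Agent.Q261.AP.good_lower hc hg hP hB,
        fun hv => Pool.Agent.Q261.AP.good_volume_lower hc hg hP hB hv⟩⟩,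
    Pool.Agent.Q261.AP.good_fM hc hg n, Pool.Agent.Q261.AP.good_fP hc hg n⟩

end Pool.Agent.Results.MP_4b405e_nt.AllDifferenceSets
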