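import Pool.Agent.Q93.EP.Low

/-!
# MP_4b405e_nt: the number of choices of progressions with few points

For `a : {0,…,N-1}^n → {0,…,N-1}^n` consider the progressions `a d + j d`, `0 ≤ j < k`, one for every
difference `d`. Let `bad n k N s` be the number of the choices `a` for which these progressions have
together at most `N^s` points, and let `tot n N = (N^n)^(N^n)` be the number of all choices.

(1) `bad n k N (n-ε) ≤ tot^(1 - 2ε/n + o(1))` for all `k ≥ 2`.

(2) Independent positions with atoms at most `K N^(-hn)` give at most `N^(n(1+h)/2 - ε)` points with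
probability at most `N^(-ε N^n)` only.

(3) If `f^M_n(k) < t` and `0 < ε < n - t`, then `bad n k N (n-ε) ≥ tot^(1 - ε/(n-t) - o(1))`.

(4) For `k = 2` both exponents agree: `bad n 2 N (n-ε) = tot^(1 - 2ε/n + o(1))`, `0 < ε < n/2`.
-/

set_option autoImplicit false

open MeasureTheory Metric Set Filter Topology TopologicalSpace

namespace Pool.Agent.Results.MP_4b405e_nt.ChoicesWithFewPoints

open Pool.Agent.Q93.TAP
open Pool.Agent.Q93.EP (Box pts weight_pts rich_ev)

/-- the number of the choices whose progressions have together at most `N^s` points -/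
noncomputable def bad (n k N : ℕ) (s : ℝ) : ℕ :=
  Nat.card {a : Box n N → Box n N // ((pts k a).card : ℝ) ≤ (N : ℝ) ^ s}

/-- the number of all choices -/
noncomputable def tot (n N : ℕ) : ℕ := Nat.card (Box n N → Box n N)

lemma tot_eq (n N : ℕ) : (tot n N : ℝ) = ((N : ℝ) ^ n) ^ (N ^ n) := by
  unfold tot
  rw [Nat.card_eq_fintype_card, Fintype.card_fun, Fintype.card_fun, Fintype.card_fin,
    Fintype.card_fin]
  push_cast
  rfl

lemma tot_rpow (n N : ℕ) (hN : 1 ≤ N) (x : ℝ) : (tot n N : ℝ) ^ x =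
    (N : ℝ) ^ (n * x * (N : ℝ) ^ (n : ℝ)) := by
  have hN0 : (0 : ℝ) < N := by exact_mod_cast hN
  rw [tot_eq, ← pow_mul, ← Real.rpow_natCast, ← Real.rpow_mul hN0.le]
  congr 1
  push_cast
  rw [Real.rpow_natCast]
  ring

/-- (1) -/
theorem upper (n k : ℕ) (hn : 1 ≤ n) (hk : 2 ≤ k) (ε δ : ℝ) (hε : 0 < ε) (hδ : 0 < δ) :
    ∀ᶠ N : ℕ in atTop, (bad n k N ((n : ℝ) - ε) : ℝ) ≤ (tot n N : ℝ) ^ (1 - 2 * ε / n + δ) := by
  have hn0 : (0 : ℝ) < n := by exact_mod_cast hn
  filter_upwards [weight_pts n k hn hk 1 1 ε (n * δ) one_pos le_rfl hε (by positivity),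
    eventually_ge_atTop 1] with N h1 hN
  have hN1 : (1 : ℝ) ≤ N := by exact_mod_cast hN
  have hN0 : (0 : ℝ) < N := by linarith
  have h2 := h1 (fun _ _ => ((N : ℝ) ^ n)⁻¹) (fun _ _ => by positivity) (fun _ _ => by
    rw [one_mul, one_mul, Real.rpow_neg hN0.le, Real.rpow_natCast])
  have e0 : (n : ℝ) * (1 + 1) / 2 - ε = n - ε := by ring
  rw [e0, Finset.sum_const, nsmul_eq_mul, Finset.prod_const, Finset.card_univ, Fintype.card_fun,
    Fintype.card_fin, Fintype.card_fin, inv_pow, ← div_eq_mul_inv, div_le_iff₀ (by positivity)] at h2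
  have e1 : bad n k N ((n : ℝ) - ε) = (Finset.univ.filter (fun a : Box n N → Box n N =>
      ((pts k a).card : ℝ) ≤ (N : ℝ) ^ ((n : ℝ) - ε))).card := by
    unfold bad
    rw [Nat.card_eq_fintype_card, Fintype.card_subtype]
  rw [e1]
  refine h2.trans (le_of_eq ?_)
  rw [tot_rpow n N hN, ← pow_mul, ← Real.rpow_natCast (N : ℝ) (n * N ^ n), ← Real.rpow_add hN0]
  congr 1
  push_cast
  rw [Real.rpow_natCast]
  field_simp
  ring

/-- (2) -/
theorem lower (n k : ℕ) (hk : 1 ≤ k) (t ε δ : ℝ) (ht : fM n k < t) (hε : 0 < ε)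
    (hεt : ε < n - t) (hδ : 0 < δ) :
    ∀ᶠ N : ℕ in atTop, (tot n N : ℝ) ^ (1 - ε / (n - t) - δ) ≤ bad n k N ((n : ℝ) - ε) := by
  have hnt : 0 < (n : ℝ) - t := hε.trans hεt
  have h1 : ε / (n - t) < 1 := by rw [div_lt_one hnt]; exact hεt
  obtain ⟨θ, h2, h3⟩ := exists_between (lt_min h1 (show ε / (n - t) < ε / (n - t) + δ / 2 by linarith))
  have hθ1 : θ < 1 := h3.trans_le (min_le_left _ _)
  have hθ2 : θ < ε / (n - t) + δ / 2 := h3.trans_le (min_le_right _ _)
  have hθ0 : 0 < θ := (by positivity : 0 < ε / (n - t)).trans h2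
  have h4 : ε < θ * (n - t) := by rwa [div_lt_iff₀ hnt] at h2
  have g1 := ((tendsto_rpow_atTop (show 0 < θ * (n - t) - ε by linarith)).comp
    tendsto_natCast_atTop_atTop).eventually_ge_atTop ((k : ℝ) ^ n)
  have g2 := ((tendsto_rpow_atTop (half_pos hδ)).comp
    tendsto_natCast_atTop_atTop).eventually_ge_atTop (4 : ℝ)
  filter_upwards [rich_ev hk ht (by linarith) hθ0 hθ1, g1, g2, eventually_ge_atTop 1]
    with N ⟨M, X, hM, hX, Ψ, hΨ1, hΨ2⟩ f1 f2 hN
  simp only [Function.comp_apply] at f1 f2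
  have hN1 : (1 : ℝ) ≤ N := by exact_mod_cast hN
  have hN0 : (0 : ℝ) < N := by linarith
  have hX2 : (X.card : ℝ) ≤ (N : ℝ) ^ ((n : ℝ) - ε) := by
    calc (X.card : ℝ) ≤ k ^ n * (N : ℝ) ^ (n - θ * (n - t)) := hX
      _ ≤ (N : ℝ) ^ (θ * (n - t) - ε) * (N : ℝ) ^ (n - θ * (n - t)) := by gcongr
      _ = _ := by rw [← Real.rpow_add hN0]; congr 1; ring
  have hsub : ∀ u : Box n N → Box n M, pts k (fun d => Ψ d (u d)) ⊆ X := by
    intro u v hv
    unfold pts at hv
    rw [Finset.mem_biUnion] at hv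
    obtain ⟨d, -, hv⟩ := hv
    rw [Finset.mem_image] at hv
    obtain ⟨j, hj, rfl⟩ := hv
    exact hΨ2 d (u d) j (Finset.mem_range.1 hj)
  have hcard : (M ^ n) ^ (N ^ n) ≤ bad n k N ((n : ℝ) - ε) := by
    have e : (M ^ n) ^ (N ^ n) = Nat.card (Box n N → Box n M) := by
      rw [Nat.card_eq_fintype_card, Fintype.card_fun, Fintype.card_fun, Fintype.card_fun,
        Fintype.card_fin, Fintype.card_fin, Fintype.card_fin]
    rw [e]
    unfold bad
    refine Nat.card_le_card_of_injective (fun u : Box n N → Box n M =>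
      (⟨fun d => Ψ d (u d), ?_⟩ : {a : Box n N → Box n N //
        ((pts k a).card : ℝ) ≤ (N : ℝ) ^ ((n : ℝ) - ε)})) ?_
    · refine le_trans ?_ hX2
      exact_mod_cast Finset.card_le_card (hsub u)
    · intro u v huv
      funext d
      have := congrFun (congrArg Subtype.val huv) d
      exact hΨ1 d this
  have hM2 : (N : ℝ) ^ (1 - θ - δ / 2) ≤ M := by
    refine le_trans ?_ hM
    rw [le_div_iff₀ (by norm_num)]
    calc (N : ℝ) ^ (1 - θ - δ / 2) * 4 ≤ (N : ℝ) ^ (1 - θ - δ / 2) * (N : ℝ) ^ (δ / 2) := by gcongr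
      _ = (N : ℝ) ^ (1 - θ) := by rw [← Real.rpow_add hN0]; congr 1; ring
  calc (tot n N : ℝ) ^ (1 - ε / (n - t) - δ) =
        (N : ℝ) ^ (n * (1 - ε / (n - t) - δ) * (N : ℝ) ^ (n : ℝ)) := tot_rpow n N hN _
    _ ≤ (N : ℝ) ^ (n * (1 - θ - δ / 2) * (N : ℝ) ^ (n : ℝ)) := by
        refine Real.rpow_le_rpow_of_exponent_le hN1 ?_
        have : 1 - ε / (n - t) - δ ≤ 1 - θ - δ / 2 := by linarith
        gcongr
    _ = (((N : ℝ) ^ (1 - θ - δ / 2)) ^ n) ^ (N ^ n) := by
        rw [← pow_mul, ← Real.rpow_natCast ((N : ℝ) ^ (1 - θ - δ / 2)), ← Real.rpow_mul hN0.le]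
        congr 1
        push_cast
        rw [Real.rpow_natCast]
        ring
    _ ≤ ((M : ℝ) ^ n) ^ (N ^ n) := by gcongr
    _ = (((M ^ n) ^ (N ^ n) : ℕ) : ℝ) := by push_cast; rfl
    _ ≤ _ := by exact_mod_cast hcard

/-- a set with progressions of all differences at one scale -/
lemma fM_le_of_disc (n k N : ℕ) (hk : 1 ≤ k) (hN : 2 ≤ N) (s : ℝ) (A : Finset (Fin n → ℤ))
    (hA : Disc k N A) (hc : (A.card : ℝ) ≤ (N : ℝ) ^ s) : fM n k ≤ s := by
  obtain ⟨K, hK⟩ := exists_attr hk hN hA hc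
  refine EReal.le_of_forall_lt_iff_le.1 fun z hz => ?_
  rw [EReal.coe_lt_coe_iff] at hz
  exact (fM_le n k K.1.isCompact.isBounded K.2).trans
    (upperDim_le K.1.isCompact.isBounded K.1.nonempty (hK z hz))

/-- the value of `f^M_n(2)` (upper bound) -/
lemma fM_two (n : ℕ) (hn : 1 ≤ n) : fM n 2 ≤ (((n : ℝ) / 2 : ℝ) : EReal) := by
  classical
  refine EReal.le_of_forall_lt_iff_le.1 fun s hs => ?_
  rw [EReal.coe_lt_coe_iff] at hs
  have hn0 : (0 : ℝ) < n := by exact_mod_cast hn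
  have g := ((tendsto_rpow_atTop (show 0 < 2 * s - n by linarith)).comp
    tendsto_natCast_atTop_atTop).eventually_ge_atTop (2 : ℝ)
  obtain ⟨m, hm1, hm2⟩ := (g.and (eventually_ge_atTop 2)).exists
  simp only [Function.comp_apply] at hm1
  have hm0 : (0 : ℝ) < m := by exact_mod_cast (by omega : 0 < m)
  set U : Finset (Fin n → Fin m) := Finset.univ with hU
  refine fM_le_of_disc n 2 (m * m) (by norm_num) (by nlinarith) s
    ((U.image fun u i => -((u i : ℕ) : ℤ)) ∪ (U.image fun u i => (m : ℤ) * ((u i : ℕ) : ℤ))) ?_ ?_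
  · intro d hd
    have hm' : (0 : ℤ) < m := by exact_mod_cast (by omega : 0 < m)
    have h1 : ∀ i, (d i / m).toNat < m := by
      intro i
      have h2 : d i / m < m := by
        rw [Int.ediv_lt_iff_lt_mul hm']
        have := (hd i).2
        push_cast at this
        exact this
      have h3 := Int.ediv_nonneg (hd i).1 hm'.le
      omega
    have h2 : ∀ i, (d i % m).toNat < m := by
      intro i
      have h3 := Int.emod_lt_of_pos (d i) hm'
      have h4 := Int.emod_nonneg (d i) hm'.ne'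
      omega
    refine ⟨fun i => -(d i % m), fun j hj => ?_⟩
    rw [Finset.mem_union, Finset.mem_image, Finset.mem_image]
    interval_cases j
    · left
      refine ⟨fun i => ⟨_, h2 i⟩, Finset.mem_univ _, ?_⟩
      funext i
      simp only
      rw [Int.toNat_of_nonneg (Int.emod_nonneg (d i) hm'.ne')]
      simp
    · right
      refine ⟨fun i => ⟨_, h1 i⟩, Finset.mem_univ _, ?_⟩
      funext i
      simp only
      rw [Int.toNat_of_nonneg (Int.ediv_nonneg (hd i).1 hm'.le)]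
      have := Int.emod_add_mul_ediv (d i) m
      push_cast
      linarith
  · have h1 : ((U.image fun u i => -((u i : ℕ) : ℤ)) ∪
        (U.image fun u i => (m : ℤ) * ((u i : ℕ) : ℤ))).card ≤ 2 * m ^ n := by
      refine (Finset.card_union_le _ _).trans ?_
      have hUc : U.card = m ^ n := by
        rw [hU, Finset.card_univ, Fintype.card_fun, Fintype.card_fin, Fintype.card_fin]
      have h2 := Finset.card_image_le (s := U) (f := fun u i => -((u i : ℕ) : ℤ))
      have h3 := Finset.card_image_le (s := U) (f := fun u i => (m : ℤ) * ((u i : ℕ) : ℤ))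
      rw [hUc] at h2 h3
      omega
    have h2 : ((2 * m ^ n : ℕ) : ℝ) ≤ ((m * m : ℕ) : ℝ) ^ s := by
      push_cast
      calc (2 : ℝ) * (m : ℝ) ^ n ≤ (m : ℝ) ^ (2 * s - n) * (m : ℝ) ^ n := by gcongr
        _ = ((m : ℝ) * m) ^ s := by
            rw [← Real.rpow_natCast (m : ℝ) n, ← Real.rpow_add hm0, Real.mul_rpow hm0.le hm0.le,
              ← Real.rpow_add hm0]
            congr 1
            ring
    exact le_trans (by exact_mod_cast h1) h2

theorem result :
    -- (1) upper bounds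
    (∀ n k : ℕ, 1 ≤ n → 2 ≤ k → ∀ ε δ : ℝ, 0 < ε → 0 < δ →
      ∀ᶠ N : ℕ in atTop, (bad n k N ((n : ℝ) - ε) : ℝ) ≤ (tot n N : ℝ) ^ (1 - 2 * ε / n + δ)) ∧
    -- (2) independent positions
    (∀ n k : ℕ, 1 ≤ n → 2 ≤ k → ∀ K h ε : ℝ, 0 < K → h ≤ 1 → 0 < ε → ∀ᶠ N : ℕ in atTop,
      ∀ π : Box n N → Box n N → ℝ, (∀ d p, 0 ≤ π d p) → (∀ d, ∑ p, π d p = 1) →
        (∀ d p, π d p ≤ K * (N : ℝ) ^ (-(h * n))) →
        ∑ a : Box n N → Box n N with ((pts k a).card : ℝ) ≤ (N : ℝ) ^ (n * (1 + h) / 2 - ε),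
          ∏ d, π d (a d) ≤ (N : ℝ) ^ (-ε * (N : ℝ) ^ (n : ℝ))) ∧
    -- (3) lower bounds
    (∀ n k : ℕ, 1 ≤ k → ∀ t ε δ : ℝ, fM n k < t → 0 < ε → ε < n - t → 0 < δ →
      ∀ᶠ N : ℕ in atTop, (tot n N : ℝ) ^ (1 - ε / (n - t) - δ) ≤ bad n k N ((n : ℝ) - ε)) ∧
    -- (4) two terms
    (∀ n : ℕ, 1 ≤ n → ∀ ε δ : ℝ, 0 < ε → ε < n / 2 → 0 < δ → ∀ᶠ N : ℕ in atTop,
      (tot n N : ℝ) ^ (1 - 2 * ε / n - δ) ≤ bad n 2 N ((n : ℝ) - ε) ∧
      (bad n 2 N ((n : ℝ) - ε) : ℝ) ≤ (tot n N : ℝ) ^ (1 - 2 * ε / n + δ)) := by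
  refine ⟨upper, ?_, fun n k hk t ε δ => lower n k hk t ε δ, ?_⟩
  · intro n k hn hk K h ε hK hh hε
    filter_upwards [weight_pts n k hn hk K h ε ε hK hh hε hε] with N hN π hπ0 _ hπ
    refine (hN π hπ0 hπ).trans (le_of_eq ?_)
    congr 1
    ring
  · intro n hn ε δ hε hε2 hδ
    have hn0 : (0 : ℝ) < n := by exact_mod_cast hn
    -- choose `t` slightly larger than `n / 2`
    have hcont : Tendsto (fun t : ℝ => ε / (n - t)) (𝓝 ((n : ℝ) / 2)) (𝓝 (ε / (n - n / 2))) := by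
      refine Tendsto.div tendsto_const_nhds (tendsto_const_nhds.sub tendsto_id) ?_
      have : (n : ℝ) - n / 2 = n / 2 := by ring
      rw [this]; positivity
    have e : ε / (n - n / 2) = 2 * ε / n := by
      have : (n : ℝ) - n / 2 = n / 2 := by ring
      rw [this]; field_simp
    rw [e] at hcont
    have h1 := (hcont.eventually_lt_const (show 2 * ε / n < 2 * ε / n + δ / 2 by linarith))
    have h2 : ∀ᶠ t : ℝ in 𝓝 ((n : ℝ) / 2), ε < n - t := by
      have h3 : (n : ℝ) / 2 < n - ε := by linarith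
      filter_upwards [eventually_lt_nhds h3] with t ht
      linarith
    have h3 : ∀ᶠ t : ℝ in 𝓝[>] ((n : ℝ) / 2), ε / (n - t) < 2 * ε / n + δ / 2 ∧ ε < n - t :=
      (h1.and h2).filter_mono nhdsWithin_le_nhds
    obtain ⟨t, ⟨h4, h5⟩, h6⟩ := (h3.and self_mem_nhdsWithin).exists
    have h6' : (n : ℝ) / 2 < t := h6
    have hf : fM n 2 < t := (fM_two n hn).trans_lt (by rw [EReal.coe_lt_coe_iff]; exact h6')
    filter_upwards [lower n 2 (by norm_num) t ε (δ / 2) hf hε h5 (half_pos hδ),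
      upper n 2 hn le_rfl ε δ hε hδ, eventually_ge_atTop 1] with N h7 h8 hN
    refine ⟨le_trans ?_ h7, h8⟩
    rw [tot_rpow n N hN, tot_rpow n N hN]
    refine Real.rpow_le_rpow_of_exponent_le (by exact_mod_cast hN) ?_
    have : 1 - 2 * ε / n - δ ≤ 1 - ε / (n - t) - δ / 2 := by linarith
    gcongr

end Pool.Agent.Results.MP_4b405e_nt.ChoicesWithFewPoints
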