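import Pool.Agent.Q93.EP.Low

/-!
# MP_4b405e_nt: the arithmetic Kakeya conjecture and the number of choices with few points

For `a : {0,…,N-1}^n → {0,…,N-1}^n` consider the progressions `a d + j d`, `0 ≤ j < k`, one for every
difference `d`. Let `bad n k N s` be the number of the choices `a` for which these progressions have
together at most `N^s` points, and let `tot n N = (N^n)^(N^n)` be the number of all choices.

(1) Counting gives dimensions, without loss: if `bad n k N (n-ε) ≤ tot^(1-Cε)` for one `ε ≤ 1/C` and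
arbitrarily large `N`, then `f^M_n(k) ≥ n - 1/C`. (With `C = 2/n` this is the elementary bound `n/2`.)

(2) Q1 is equivalent to: for every `n` and `C` there are `k` and `0 < ε ≤ 1/C` such that
`bad n k N (n-ε) ≤ tot^(1-Cε)` for arbitrarily large `N`.

(3) For every `h < 1`, Q1 is equivalent to its form for rich sets: for all `n`, `ε` there is `k` such
that, `N` large, every finite set which contains at least `N^(hn)` `k`-term progressions of each
difference `d ∈ {0,…,N-1}^n` has at least `N^(n-ε)` elements.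
-/

set_option autoImplicit false

open MeasureTheory Metric Set Filter Topology TopologicalSpace

namespace Pool.Agent.Results.MP_4b405e_nt.CountingForm

open Pool.Agent.Q93.TAP
open Pool.Agent.Q93.EP (Box pts rich_ev)

/-- Q1, the arithmetic Kakeya conjecture for Minkowski dimensions (the frozen statement). -/
def ArithmeticKakeya : Prop :=
  ∀ n : ℕ, ∀ ε : ℝ, 0 < ε → ∃ k : ℕ,
    ∀ B : Set (EuclideanSpace ℝ (Fin n)),
      (∀ d : EuclideanSpace ℝ (Fin n), (∀ i, d i ∈ Set.Icc (0:ℝ) 1) →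
        ∃ a : EuclideanSpace ℝ (Fin n), ∀ j : ℕ, j < k → a + (j : ℝ) • d ∈ B) →
      ∀ δ₀ : ℝ, 0 < δ₀ → ∃ δ : ℝ, 0 < δ ∧ δ < δ₀ ∧
        ∀ S : Finset (EuclideanSpace ℝ (Fin n)),
          B ⊆ (⋃ x ∈ S, Metric.ball x δ) →
          δ ^ (-((n : ℝ) - ε)) ≤ (S.card : ℝ)

/-- the number of the choices whose progressions have together at most `N^s` points -/
noncomputable def bad (n k N : ℕ) (s : ℝ) : ℕ :=
  Nat.card {a : Box n N → Box n N // ((pts k a).card : ℝ) ≤ (N : ℝ) ^ s}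

/-- the number of all choices -/
noncomputable def tot (n N : ℕ) : ℕ := Nat.card (Box n N → Box n N)

open Classical in
/-- the number of the `k`-term progressions with difference `d` in `X` (`k ≥ 1`) -/
noncomputable def numAP {n : ℕ} (k : ℕ) (X : Finset (Fin n → ℤ)) (d : Fin n → ℤ) : ℕ :=
  (X.filter fun a => ∀ j : ℕ, j < k → (fun i => a i + (j : ℤ) * d i) ∈ X).card

/-- the form of Q1 for rich sets -/
def RichForm (h : ℝ) : Prop := ∀ n : ℕ, 1 ≤ n → ∀ ε : ℝ, 0 < ε → ∃ k : ℕ, 1 ≤ k ∧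
  ∀ᶠ N : ℕ in atTop, ∀ X : Finset (Fin n → ℤ),
    (∀ d : Fin n → ℤ, (∀ i, 0 ≤ d i ∧ d i < N) → (N : ℝ) ^ (h * n) ≤ numAP k X d) →
      (N : ℝ) ^ ((n : ℝ) - ε) ≤ X.card

/-- the counting form of Q1 -/
def CountingQ1 : Prop := ∀ n : ℕ, 1 ≤ n → ∀ C : ℝ, 0 < C → ∃ ε : ℝ, 0 < ε ∧ C * ε ≤ 1 ∧
  ∃ k : ℕ, 1 ≤ k ∧ ∃ᶠ N : ℕ in atTop, (bad n k N ((n : ℝ) - ε) : ℝ) ≤ (tot n N : ℝ) ^ (1 - C * ε)

lemma tot_eq (n N : ℕ) : (tot n N : ℝ) = ((N : ℝ) ^ n) ^ (N ^ n) := by
  unfold tot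
  rw [Nat.card_eq_fintype_card, Fintype.card_fun, Fintype.card_fun, Fintype.card_fin,
    Fintype.card_fin]
  push_cast
  rfl

lemma tot_rpow (n N : ℕ) (hN : 1 ≤ N) (x : ℝ) : (tot n N : ℝ) ^ x =
    (N : ℝ) ^ (n * x * (N : ℝ) ^ (n : ℝ)) := by
  have hN0 : (0 : ℝ) < N := by exact_mod_cast hN
  rw [tot_eq, ← pow_mul, ← Real.rpow_natCast, ← Real.rpow_mul hN0.le]
  congr 1
  push_cast
  rw [Real.rpow_natCast]
  ring

/-- many bad choices if `f^M_n(k)` is small -/
theorem lower (n k : ℕ) (hk : 1 ≤ k) (t ε δ : ℝ) (ht : fM n k < t) (hε : 0 < ε)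
    (hεt : ε < n - t) (hδ : 0 < δ) :
    ∀ᶠ N : ℕ in atTop, (tot n N : ℝ) ^ (1 - ε / (n - t) - δ) ≤ bad n k N ((n : ℝ) - ε) := by
  have hnt : 0 < (n : ℝ) - t := hε.trans hεt
  have h1 : ε / (n - t) < 1 := by rw [div_lt_one hnt]; exact hεt
  obtain ⟨θ, h2, h3⟩ := exists_between (lt_min h1 (show ε / (n - t) < ε / (n - t) + δ / 2 by linarith))
  have hθ1 : θ < 1 := h3.trans_le (min_le_left _ _)
  have hθ2 : θ < ε / (n - t) + δ / 2 := h3.trans_le (min_le_right _ _)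
  have hθ0 : 0 < θ := (by positivity : 0 < ε / (n - t)).trans h2
  have h4 : ε < θ * (n - t) := by rwa [div_lt_iff₀ hnt] at h2
  have g1 := ((tendsto_rpow_atTop (show 0 < θ * (n - t) - ε by linarith)).comp
    tendsto_natCast_atTop_atTop).eventually_ge_atTop ((k : ℝ) ^ n)
  have g2 := ((tendsto_rpow_atTop (half_pos hδ)).comp
    tendsto_natCast_atTop_atTop).eventually_ge_atTop (4 : ℝ)
  filter_upwards [rich_ev hk ht (by linarith) hθ0 hθ1, g1, g2, eventually_ge_atTop 1]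
    with N ⟨M, X, hM, hX, Ψ, hΨ1, hΨ2⟩ f1 f2 hN
  simp only [Function.comp_apply] at f1 f2
  have hN1 : (1 : ℝ) ≤ N := by exact_mod_cast hN
  have hN0 : (0 : ℝ) < N := by linarith
  have hX2 : (X.card : ℝ) ≤ (N : ℝ) ^ ((n : ℝ) - ε) := by
    calc (X.card : ℝ) ≤ k ^ n * (N : ℝ) ^ (n - θ * (n - t)) := hX
      _ ≤ (N : ℝ) ^ (θ * (n - t) - ε) * (N : ℝ) ^ (n - θ * (n - t)) := by gcongr
      _ = _ := by rw [← Real.rpow_add hN0]; congr 1; ring
  have hsub : ∀ u : Box n N → Box n M, pts k (fun d => Ψ d (u d)) ⊆ X := by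
    intro u v hv
    unfold pts at hv
    rw [Finset.mem_biUnion] at hv
    obtain ⟨d, -, hv⟩ := hv
    rw [Finset.mem_image] at hv
    obtain ⟨j, hj, rfl⟩ := hv
    exact hΨ2 d (u d) j (Finset.mem_range.1 hj)
  have hcard : (M ^ n) ^ (N ^ n) ≤ bad n k N ((n : ℝ) - ε) := by
    have e : (M ^ n) ^ (N ^ n) = Nat.card (Box n N → Box n M) := by
      rw [Nat.card_eq_fintype_card, Fintype.card_fun, Fintype.card_fun, Fintype.card_fun,
        Fintype.card_fin, Fintype.card_fin, Fintype.card_fin]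
    rw [e]
    unfold bad
    refine Nat.card_le_card_of_injective (fun u : Box n N → Box n M =>
      (⟨fun d => Ψ d (u d), ?_⟩ : {a : Box n N → Box n N //
        ((pts k a).card : ℝ) ≤ (N : ℝ) ^ ((n : ℝ) - ε)})) ?_
    · refine le_trans ?_ hX2
      exact_mod_cast Finset.card_le_card (hsub u)
    · intro u v huv
      funext d
      have := congrFun (congrArg Subtype.val huv) d
      exact hΨ1 d this
  have hM2 : (N : ℝ) ^ (1 - θ - δ / 2) ≤ M := by
    refine le_trans ?_ hM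
    rw [le_div_iff₀ (by norm_num)]
    calc (N : ℝ) ^ (1 - θ - δ / 2) * 4 ≤ (N : ℝ) ^ (1 - θ - δ / 2) * (N : ℝ) ^ (δ / 2) := by gcongr
      _ = (N : ℝ) ^ (1 - θ) := by rw [← Real.rpow_add hN0]; congr 1; ring
  calc (tot n N : ℝ) ^ (1 - ε / (n - t) - δ) =
        (N : ℝ) ^ (n * (1 - ε / (n - t) - δ) * (N : ℝ) ^ (n : ℝ)) := tot_rpow n N hN _
    _ ≤ (N : ℝ) ^ (n * (1 - θ - δ / 2) * (N : ℝ) ^ (n : ℝ)) := by
        refine Real.rpow_le_rpow_of_exponent_le hN1 ?_
        have : 1 - ε / (n - t) - δ ≤ 1 - θ - δ / 2 := by linarith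
        gcongr
    _ = (((N : ℝ) ^ (1 - θ - δ / 2)) ^ n) ^ (N ^ n) := by
        rw [← pow_mul, ← Real.rpow_natCast ((N : ℝ) ^ (1 - θ - δ / 2)), ← Real.rpow_mul hN0.le]
        congr 1
        push_cast
        rw [Real.rpow_natCast]
        ring
    _ ≤ ((M : ℝ) ^ n) ^ (N ^ n) := by gcongr
    _ = (((M ^ n) ^ (N ^ n) : ℕ) : ℝ) := by push_cast; rfl
    _ ≤ _ := by exact_mod_cast hcard

/-- (1) -/
theorem dimension (n k : ℕ) (hn : 1 ≤ n) (hk : 1 ≤ k) (C ε : ℝ) (hC : 0 < C) (hε : 0 < ε)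
    (hCε : C * ε ≤ 1)
    (h : ∃ᶠ N : ℕ in atTop, (bad n k N ((n : ℝ) - ε) : ℝ) ≤ (tot n N : ℝ) ^ (1 - C * ε)) :
    ((n - 1 / C : ℝ) : EReal) ≤ fM n k := by
  by_contra hcon
  rw [not_le] at hcon
  obtain ⟨t, ht1, ht2⟩ := EReal.lt_iff_exists_real_btwn.1 hcon
  rw [EReal.coe_lt_coe_iff] at ht2
  have h1 : 1 / C < n - t := by linarith
  have h2 : ε ≤ 1 / C := by rw [le_div_iff₀ hC]; linarith
  have hnt : 0 < (n : ℝ) - t := (by positivity : 0 < 1 / C).trans h1
  have h3 : ε / (n - t) < C * ε := by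
    rw [div_lt_iff₀ hnt]
    rw [div_lt_iff₀ hC] at h1
    nlinarith
  obtain ⟨δ, hδ⟩ : ∃ δ, δ = (C * ε - ε / (n - t)) / 2 := ⟨_, rfl⟩
  have hδ0 : 0 < δ := by rw [hδ]; linarith
  have hl := lower n k hk t ε δ ht1 hε (by linarith) hδ0
  obtain ⟨N, h4, h5, h6⟩ := (h.and_eventually (hl.and (eventually_ge_atTop 2))).exists
  have hN2 : (2 : ℝ) ≤ N := by exact_mod_cast h6
  have h7 := h5.trans h4
  rw [tot_rpow n N (by omega), tot_rpow n N (by omega)] at h7
  have h8 := (Real.rpow_le_rpow_left_iff (by linarith : (1 : ℝ) < N)).1 h7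
  have hn0 : (0 : ℝ) < n := by exact_mod_cast hn
  have h9 : 0 < (N : ℝ) ^ (n : ℝ) := by positivity
  have h10 := le_of_mul_le_mul_right h8 h9
  have h11 := le_of_mul_le_mul_left h10 hn0
  linarith

/-- a set with progressions of all differences at one scale -/
lemma fM_le_of_disc (n k N : ℕ) (hk : 1 ≤ k) (hN : 2 ≤ N) (s : ℝ) (A : Finset (Fin n → ℤ))
    (hA : Disc k N A) (hc : (A.card : ℝ) ≤ (N : ℝ) ^ s) : fM n k ≤ s := by
  obtain ⟨K, hK⟩ := exists_attr hk hN hA hc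
  refine EReal.le_of_forall_lt_iff_le.1 fun z hz => ?_
  rw [EReal.coe_lt_coe_iff] at hz
  exact (fM_le n k K.1.isCompact.isBounded K.2).trans
    (upperDim_le K.1.isCompact.isBounded K.1.nonempty (hK z hz))

lemma fM_le_of_bad (n k N : ℕ) (hk : 1 ≤ k) (hN : 2 ≤ N) (s : ℝ) (h : 0 < bad n k N s) :
    fM n k ≤ s := by
  unfold bad at h
  obtain ⟨⟨a, ha⟩⟩ := (Nat.card_pos_iff.1 h).1
  refine fM_le_of_disc n k N hk hN s (pts k a) (fun d hd => ?_) ha
  have hd2 : ∀ i, (d i).toNat < N := fun i => by have := hd i; omega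
  refine ⟨fun i => ((a (fun i => ⟨(d i).toNat, hd2 i⟩) i : ℕ) : ℤ), fun j hj => ?_⟩
  unfold pts
  rw [Finset.mem_biUnion]
  refine ⟨fun i => ⟨(d i).toNat, hd2 i⟩, Finset.mem_univ _, ?_⟩
  rw [Finset.mem_image]
  refine ⟨j, Finset.mem_range.2 hj, ?_⟩
  funext i
  simp only
  rw [Int.toNat_of_nonneg (hd i).1]

lemma kakeya_iff : ArithmeticKakeya ↔ ∀ n : ℕ, ∀ ε : ℝ, 0 < ε → ∃ k : ℕ, 1 ≤ k ∧
    (((n : ℝ) - ε : ℝ) : EReal) ≤ fM n k := by
  constructor
  · intro h n ε hε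
    obtain ⟨k₀, hk₀⟩ := h n ε hε
    refine ⟨max k₀ 1, le_max_right _ _, le_iInf fun B => le_iInf fun hB => le_iInf fun hap => ?_⟩
    refine le_upperDim hB (hap.nonempty (le_max_right _ _)) ?_
    rw [Filter.frequently_iff]
    intro U hU
    rw [mem_nhdsGT_iff_exists_Ioo_subset] at hU
    obtain ⟨u, hu, hsub⟩ := hU
    obtain ⟨δ, h3, h4, h5⟩ := hk₀ B (fun d hd => by
      obtain ⟨a, ha⟩ := hap d hd
      exact ⟨a, fun j hj => ha j (hj.trans_le (le_max_left _ _))⟩) u hu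
    refine ⟨δ, hsub ⟨h3, h4⟩, fun m hm => ?_⟩
    obtain ⟨S, hS, hcov⟩ := hm
    exact (h5 S hcov).trans (by exact_mod_cast hS)
  · intro h n ε hε
    obtain ⟨k, hk, hf⟩ := h n (ε / 2) (half_pos hε)
    refine ⟨k, fun B hap δ₀ hδ₀ => ?_⟩
    by_cases hB : Bornology.IsBounded B
    · have h1 : (((n : ℝ) - ε : ℝ) : EReal) < lowerDim B := by
        refine lt_of_lt_of_le ?_ (hf.trans (fM_le_lowerDim n k hk hB hap))
        rw [EReal.coe_lt_coe_iff]
        linarith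
      have h2 := eventually_lt_of_lt_liminf h1 (by isBoundedDefault)
      have h4 : ∀ᶠ δ : ℝ in 𝓝[>] 0, δ < δ₀ :=
        (eventually_lt_nhds hδ₀).filter_mono nhdsWithin_le_nhds
      obtain ⟨δ, ⟨h5, h6⟩, h7, h8⟩ := ((h2.and h4).and small_ev).exists
      rw [EReal.coe_lt_coe_iff] at h5
      refine ⟨δ, h7, h6, fun S hS => ?_⟩
      have h9 : ¬ (covN δ B : ℝ) ≤ δ ^ (-((n : ℝ) - ε)) := by
        rw [← expo_le hB (HasAP.nonempty (k := k) hap hk) h7 h8]
        exact not_le.2 h5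
      have h10 : covN δ B ≤ S.card := covN_le ⟨S, le_rfl, hS⟩
      exact (not_le.1 h9).le.trans (by exact_mod_cast h10)
    · refine ⟨δ₀ / 2, half_pos hδ₀, half_lt_self hδ₀, fun S hS => ?_⟩
      exfalso
      apply hB
      refine Bornology.IsBounded.subset ?_ hS
      exact (Bornology.isBounded_biUnion_finset S).2 fun x _ => isBounded_ball

lemma rich_of_kakeya (h : ArithmeticKakeya) (h' : ℝ) : RichForm h' := by
  classical
  intro n hn ε hε
  obtain ⟨k, hk, hf⟩ := kakeya_iff.1 h n (ε / 2) (half_pos hε)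
  refine ⟨k, hk, ?_⟩
  filter_upwards [eventually_ge_atTop 2] with N hN X hX
  by_contra hcon
  rw [not_le] at hcon
  have hd : Disc k N X := by
    intro d hd
    have h1 := hX d hd
    have h2 : (0 : ℝ) < numAP k X d := by
      have : (0 : ℝ) < N := by exact_mod_cast (by omega : 0 < N)
      exact (by positivity : (0 : ℝ) < (N : ℝ) ^ (h' * n)).trans_le h1
    have h3 : 0 < numAP k X d := by exact_mod_cast h2
    unfold numAP at h3
    obtain ⟨a, ha⟩ := Finset.card_pos.1 h3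
    exact ⟨a, (Finset.mem_filter.1 ha).2⟩
  have h1 := hf.trans (fM_le_of_disc n k N hk hN _ X hd hcon.le)
  rw [EReal.coe_le_coe_iff] at h1
  linarith

lemma kakeya_of_rich (h' : ℝ) (hh : h' < 1) (h : RichForm h') : ArithmeticKakeya := by
  classical
  rw [kakeya_iff]
  intro n ε₀ hε₀
  rcases Nat.eq_zero_or_pos n with hn | hn
  · subst hn
    refine ⟨1, le_rfl, le_trans ?_ (fM_nonneg 0 1 le_rfl)⟩
    have : (((0 : ℕ) : ℝ) - ε₀) ≤ 0 := by push_cast; linarith
    exact_mod_cast this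
  by_contra hcon
  push Not at hcon
  obtain ⟨g, hg⟩ : ∃ g, g = max h' 0 := ⟨_, rfl⟩
  have hg1 : g < 1 := by rw [hg]; exact max_lt hh one_pos
  have hg0 : 0 ≤ g := by rw [hg]; exact le_max_right _ _
  have hgh : h' ≤ g := by rw [hg]; exact le_max_left _ _
  obtain ⟨θ, hθ⟩ : ∃ θ, θ = 3 * (1 - g) / 4 := ⟨_, rfl⟩
  have hθ0 : 0 < θ := by rw [hθ]; linarith
  have hθ1 : θ < 1 := by rw [hθ]; linarith
  obtain ⟨k, hk, hrich⟩ := h n hn (θ * ε₀ / 2) (by positivity)
  have hev := rich_ev hk (hcon k hk) (by linarith) hθ0 hθ1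
  have g1 := ((tendsto_rpow_atTop (show 0 < θ * ε₀ / 2 by positivity)).comp
    tendsto_natCast_atTop_atTop).eventually_gt_atTop ((k : ℝ) ^ n)
  have g2 := ((tendsto_rpow_atTop (show 0 < (1 - g) / 4 by linarith)).comp
    tendsto_natCast_atTop_atTop).eventually_ge_atTop (4 : ℝ)
  obtain ⟨N, hr, ⟨M, X, hM, hX, Ψ, hΨ1, hΨ2⟩, f1, f2, hN⟩ :=
    (hrich.and (hev.and (g1.and (g2.and (eventually_ge_atTop 1))))).exists
  simp only [Function.comp_apply] at f1 f2
  have hN1 : (1 : ℝ) ≤ N := by exact_mod_cast hN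
  have hN0 : (0 : ℝ) < N := by linarith
  have h1 := hr X (fun d hd => by
    have hd2 : ∀ i, (d i).toNat < N := fun i => by have := hd i; omega
    obtain ⟨d', hd'⟩ : ∃ d' : Box n N, d' = fun i => ⟨(d i).toNat, hd2 i⟩ := ⟨_, rfl⟩
    have hdd : ∀ i, ((d' i : ℕ) : ℤ) = d i := fun i => by
      rw [hd']; simp only; exact Int.toNat_of_nonneg (hd i).1
    have h2 : M ^ n ≤ numAP k X d := by
      have e : M ^ n = (Finset.univ.image fun (u : Box n M) (i : Fin n) =>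
          ((Ψ d' u i : ℕ) : ℤ)).card := by
        rw [Finset.card_image_of_injective, Finset.card_univ, Fintype.card_fun, Fintype.card_fin,
          Fintype.card_fin]
        intro u v huv
        apply hΨ1 d'
        funext i
        have := congrFun huv i
        simp only [Nat.cast_inj] at this
        exact Fin.ext this
      rw [e]
      unfold numAP
      refine Finset.card_le_card fun v hv => ?_
      rw [Finset.mem_image] at hv
      obtain ⟨u, -, rfl⟩ := hv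
      rw [Finset.mem_filter]
      have h3 : ∀ j : ℕ, j < k → (fun i => ((Ψ d' u i : ℕ) : ℤ) + (j : ℤ) * d i) ∈ X := by
        intro j hj
        have := hΨ2 d' u j hj
        simpa only [hdd] using this
      refine ⟨?_, h3⟩
      have := h3 0 hk
      simpa using this
    have h3 : (N : ℝ) ^ (h' * n) ≤ (M : ℝ) ^ n := by
      have h4 : (N : ℝ) ^ g ≤ M := by
        refine le_trans ?_ hM
        rw [le_div_iff₀ (by norm_num)]
        calc (N : ℝ) ^ g * 4 ≤ (N : ℝ) ^ g * (N : ℝ) ^ ((1 - g) / 4) := by gcongr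
          _ = (N : ℝ) ^ (1 - θ) := by
              rw [← Real.rpow_add hN0]; congr 1; rw [hθ]; ring
      calc (N : ℝ) ^ (h' * n) ≤ (N : ℝ) ^ (g * n) :=
            Real.rpow_le_rpow_of_exponent_le hN1 (by gcongr)
        _ = ((N : ℝ) ^ g) ^ n := by rw [Real.rpow_mul hN0.le, Real.rpow_natCast]
        _ ≤ (M : ℝ) ^ n := by gcongr
    refine h3.trans ?_
    exact_mod_cast h2)
  have h2 : (N : ℝ) ^ ((n : ℝ) - θ * ε₀ / 2) ≤ k ^ n * (N : ℝ) ^ ((n : ℝ) - θ * ε₀) := by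
    refine h1.trans (hX.trans (le_of_eq ?_))
    congr 2
    ring
  have h3 : (k : ℝ) ^ n * (N : ℝ) ^ ((n : ℝ) - θ * ε₀) < (N : ℝ) ^ ((n : ℝ) - θ * ε₀ / 2) := by
    calc (k : ℝ) ^ n * (N : ℝ) ^ ((n : ℝ) - θ * ε₀) <
          (N : ℝ) ^ (θ * ε₀ / 2) * (N : ℝ) ^ ((n : ℝ) - θ * ε₀) := by
          apply mul_lt_mul_of_pos_right f1 (by positivity)
      _ = _ := by rw [← Real.rpow_add hN0]; congr 1; ring
  linarith

theorem result :
    -- (1) counting gives dimensions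
    (∀ n k : ℕ, 1 ≤ n → 1 ≤ k → ∀ C ε : ℝ, 0 < C → 0 < ε → C * ε ≤ 1 →
      (∃ᶠ N : ℕ in atTop, (bad n k N ((n : ℝ) - ε) : ℝ) ≤ (tot n N : ℝ) ^ (1 - C * ε)) →
      ((n - 1 / C : ℝ) : EReal) ≤ fM n k) ∧
    -- (2), (3) equivalent forms of Q1
    (ArithmeticKakeya ↔ CountingQ1) ∧
    (∀ h : ℝ, h < 1 → (ArithmeticKakeya ↔ RichForm h)) := by
  refine ⟨dimension, ⟨?_, ?_⟩,
    fun h hh => ⟨fun hk => rich_of_kakeya hk h, kakeya_of_rich h hh⟩⟩
  · intro h n hn C hC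
    refine ⟨1 / (2 * C), by positivity, by
      have : C * (1 / (2 * C)) = 1 / 2 := by field_simp
      rw [this]; norm_num, ?_⟩
    obtain ⟨k, hk, hf⟩ := kakeya_iff.1 h n (1 / (2 * C) / 2) (by positivity)
    refine ⟨k, hk, Eventually.frequently ?_⟩
    filter_upwards [eventually_ge_atTop 2] with N hN
    have h0 : bad n k N ((n : ℝ) - 1 / (2 * C)) = 0 := by
      by_contra hne
      have h1 := hf.trans (fM_le_of_bad n k N hk hN _ (Nat.pos_of_ne_zero hne))
      rw [EReal.coe_le_coe_iff] at h1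
      have : 0 < 1 / (2 * C) := by positivity
      linarith
    rw [h0, Nat.cast_zero]
    positivity
  · intro h
    rw [kakeya_iff]
    intro n ε₀ hε₀
    rcases Nat.eq_zero_or_pos n with hn | hn
    · subst hn
      refine ⟨1, le_rfl, le_trans ?_ (fM_nonneg 0 1 le_rfl)⟩
      have : (((0 : ℕ) : ℝ) - ε₀) ≤ 0 := by push_cast; linarith
      exact_mod_cast this
    · obtain ⟨ε, hε, hCε, k, hk, hfr⟩ := h n hn (1 / ε₀) (by positivity)
      refine ⟨k, hk, ?_⟩
      have := dimension n k hn hk (1 / ε₀) ε (by positivity) hε hCε hfr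
      rwa [one_div_one_div] at this

end Pool.Agent.Results.MP_4b405e_nt.CountingForm
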