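import Pool.Agent.Q93.TAP.Dim

/-!
# MP_4b405e_nt: dimensions of typical sets with progressions of every common difference

The nonempty compact subsets of `ℝ^n` which contain a `k`-term arithmetic progression with every common
difference in `[0,1]^n` form a complete metric space `APS n k` with the Hausdorff distance. We compute
the dimensions of its typical elements `K` (in the sense of Baire category):

* `dim_H K = 0`, the lower Minkowski dimension of `K` is `f^M_n(k)`, the infimum in the definition of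
  Q1 (of the *upper* Minkowski dimensions of all bounded sets with the property), and the upper
  Minkowski dimension of `K` is `n`;
* `N_δ(B) ≥ c δ^(-f^M_n(k))` for every bounded set `B` with the property and every `δ ≤ 1`, where
  `c > 0` depends on `n` and `k` only;
* Q1 is equivalent to: for all `n` and `ε > 0` there is `k` such that the sets of lower Minkowski
  dimension `≥ n - ε` are not meagre in `APS n k`; and to: for all `n` and `ε > 0` there are `k` and
  `c > 0` with `N_δ(B) ≥ c δ^(-(n-ε))` at every scale `δ ≤ 1`, for all `B`.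

Proof. From a set with few `δ`-balls at one scale one obtains by rounding a finite set of integer points
and from it a self-similar set, small at all scales. Finite unions of small copies of one set of the
space are dense in the space. For the Hausdorff dimension one moves the progressions successively such
that their `j`-th terms lie in a fine lattice, the fineness growing rapidly with `j`.
-/

open MeasureTheory Metric Set Filter Topology TopologicalSpace
open scoped ENNReal NNReal

namespace Pool.Agent.Results.MP_4b405e_nt.TypicalProgressionSets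

open Pool.Agent.Q93.TAP

/-- Q1, the arithmetic Kakeya conjecture for Minkowski dimensions (the frozen statement). -/
def ArithmeticKakeya : Prop :=
  ∀ n : ℕ, ∀ ε : ℝ, 0 < ε → ∃ k : ℕ,
    ∀ B : Set (EuclideanSpace ℝ (Fin n)),
      (∀ d : EuclideanSpace ℝ (Fin n), (∀ i, d i ∈ Set.Icc (0:ℝ) 1) →
        ∃ a : EuclideanSpace ℝ (Fin n), ∀ j : ℕ, j < k → a + (j : ℝ) • d ∈ B) →
      ∀ δ₀ : ℝ, 0 < δ₀ → ∃ δ : ℝ, 0 < δ ∧ δ < δ₀ ∧
        ∀ S : Finset (EuclideanSpace ℝ (Fin n)),
          B ⊆ (⋃ x ∈ S, Metric.ball x δ) →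
          δ ^ (-((n : ℝ) - ε)) ≤ (S.card : ℝ)

/-- The limit form of Q1. -/
def LimitForm : Prop := ∀ n : ℕ, Tendsto (fun k => fM n k) atTop (𝓝 (n : EReal))

/-- Q1 for a nonmeagre family of compact sets, and lower Minkowski dimensions. -/
def GenericForm : Prop := ∀ n : ℕ, ∀ ε : ℝ, 0 < ε → ∃ k : ℕ, 1 ≤ k ∧
  ¬ IsMeagre {K : APS n k | (((n : ℝ) - ε : ℝ) : EReal) ≤ lowerDim (K.1 : Set (E n))}

/-- The uniform form of Q1, at every scale. -/
def UniformForm : Prop := ∀ n : ℕ, ∀ ε : ℝ, 0 < ε → ∃ k : ℕ, ∃ c : ℝ, 0 < c ∧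
  ∀ B : Set (E n), Bornology.IsBounded B → HasAP k B → ∀ δ : ℝ, 0 < δ → δ ≤ 1 →
    c * δ ^ (-((n : ℝ) - ε)) ≤ covN δ B

lemma coe_nat (n : ℕ) : ((n : ℝ) : EReal) = (n : EReal) := by norm_cast

lemma freq_of {p : ℝ → Prop} (h : ∀ δ₀ : ℝ, 0 < δ₀ → ∃ δ : ℝ, 0 < δ ∧ δ < δ₀ ∧ p δ) :
    ∃ᶠ δ in 𝓝[>] (0 : ℝ), p δ := by
  rw [Filter.frequently_iff]
  intro U hU
  rw [mem_nhdsGT_iff_exists_Ioo_subset] at hU
  obtain ⟨u, hu, hsub⟩ := hU
  obtain ⟨δ, h1, h2, h3⟩ := h u hu
  exact ⟨δ, hsub ⟨h1, h2⟩, h3⟩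

theorem result :
    (∀ n k : ℕ, 1 ≤ k → CompleteSpace (APS n k) ∧ Nonempty (APS n k) ∧
      (∀ᶠ K : APS n k in residual (APS n k), dimH (K.1 : Set (E n)) = 0 ∧
        lowerDim (K.1 : Set (E n)) = fM n k ∧ upperDim (K.1 : Set (E n)) = n) ∧
      (∃ c : ℝ, 0 < c ∧ ∀ B : Set (E n), Bornology.IsBounded B → HasAP k B →
        ∀ δ : ℝ, 0 < δ → δ ≤ 1 → c * δ ^ (-(fM n k).toReal) ≤ covN δ B)) ∧
    [ArithmeticKakeya, LimitForm, GenericForm, UniformForm].TFAE := by
  refine ⟨fun n k hk => ⟨inferInstance, inferInstance, typical_dims n k hk, uniform n k hk⟩, ?_⟩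
  tfae_have 1 → 2 := by
    intro h n
    refine tendsto_order.2 ⟨fun a ha => ?_, fun a ha => ?_⟩
    · obtain ⟨z, h1, h2⟩ := EReal.lt_iff_exists_real_btwn.1 ha
      have h2' : z < (n : ℝ) := by exact_mod_cast h2
      obtain ⟨k₀, hk₀⟩ := h n (n - z) (by linarith)
      filter_upwards [eventually_ge_atTop (max k₀ 1)] with k hk
      refine h1.trans_le (le_iInf fun B => le_iInf fun hB => le_iInf fun hap => ?_)
      refine le_upperDim hB (hap.nonempty ((le_max_right _ _).trans hk)) (freq_of fun δ₀ hδ₀ => ?_)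
      obtain ⟨δ, h3, h4, h5⟩ := hk₀ B (fun d hd => by
        obtain ⟨a, ha⟩ := hap d hd
        exact ⟨a, fun j hj => ha j (hj.trans_le ((le_max_left _ _).trans hk))⟩) δ₀ hδ₀
      refine ⟨δ, h3, h4, fun m hm => ?_⟩
      obtain ⟨S, hS, hcov⟩ := hm
      have h6 := h5 S hcov
      have e : -((n : ℝ) - (n - z)) = -z := by ring
      rw [e] at h6
      exact h6.trans (by exact_mod_cast hS)
    · filter_upwards [eventually_ge_atTop 1] with k hk
      exact (fM_le_n n k hk).trans_lt ha
  tfae_have 2 → 3 := by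
    intro h n ε hε
    have h1 : (((n : ℝ) - ε : ℝ) : EReal) < (n : EReal) := by
      rw [← coe_nat, EReal.coe_lt_coe_iff]; linarith
    obtain ⟨k, h2, hk⟩ := (((h n).eventually_const_lt h1).and (eventually_ge_atTop 1)).exists
    refine ⟨k, hk, fun hm => ?_⟩
    have hall : {K : APS n k | (((n : ℝ) - ε : ℝ) : EReal) ≤ lowerDim (K.1 : Set (E n))} = univ := by
      refine eq_univ_of_forall fun K => ?_
      exact h2.le.trans (fM_le_lowerDim n k hk K.1.isCompact.isBounded K.2)
    rw [hall] at hm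
    exact not_isMeagre_of_isOpen isOpen_univ univ_nonempty hm
  tfae_have 3 → 4 := by
    intro h n ε hε
    obtain ⟨k, hk, hm⟩ := h n ε hε
    obtain ⟨c, hc, hu⟩ := uniform n k hk
    have hle : (((n : ℝ) - ε : ℝ) : EReal) ≤ fM n k := by
      by_contra hneg
      exact hm (mem_of_superset (typical_lower n k hk) fun K hK hK' => hneg (le_trans hK' hK))
    refine ⟨k, c, hc, fun B hB hap δ hδ hδ1 => le_trans ?_ (hu B hB hap δ hδ hδ1)⟩
    have hf0 := fM_nonneg n k hk
    have hfn := fM_le_n n k hk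
    have hcoe : (((fM n k).toReal : ℝ) : EReal) = fM n k := by
      refine EReal.coe_toReal ?_ ?_
      · exact ne_top_of_le_ne_top (by rw [← coe_nat]; exact EReal.coe_ne_top _) hfn
      · exact ne_bot_of_le_ne_bot (by simp) hf0
    rw [← hcoe, EReal.coe_le_coe_iff] at hle
    have : δ ^ (-((n : ℝ) - ε)) ≤ δ ^ (-(fM n k).toReal) :=
      Real.rpow_le_rpow_of_exponent_ge hδ hδ1 (by linarith)
    gcongr
  tfae_have 4 → 1 := by
    intro h n ε hε
    obtain ⟨k, c, hc, hu⟩ := h n (ε / 2) (half_pos hε)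
    refine ⟨k, fun B hap δ₀ hδ₀ => ?_⟩
    have h1 := tendsto_inv_gt.eventually
      (rpow_ev (show (n : ℝ) - ε < n - ε / 2 by linarith) (1 / c))
    have h4 : ∀ᶠ δ : ℝ in 𝓝[>] 0, δ < δ₀ :=
      (eventually_lt_nhds hδ₀).filter_mono nhdsWithin_le_nhds
    obtain ⟨δ, ⟨h1, h2⟩, h3, h5⟩ := ((h1.and h4).and small_ev).exists
    refine ⟨δ, h3, h2, fun S hS => ?_⟩
    have hB : Bornology.IsBounded B := by
      refine Bornology.IsBounded.subset ?_ hS
      exact (Bornology.isBounded_biUnion_finset S).2 fun x _ => isBounded_ball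
    have h6 := hu B hB hap δ h3 h5.le
    have h7 : (covN δ B : ℝ) ≤ S.card := by exact_mod_cast covN_le ⟨S, le_rfl, hS⟩
    rw [rpow_inv_eq h3] at h6 ⊢
    refine le_trans ?_ (h6.trans h7)
    rw [one_div c, inv_mul_le_iff₀ hc] at h1
    exact h1
  tfae_finish

end Pool.Agent.Results.MP_4b405e_nt.TypicalProgressionSets
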